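import Mathlib
import Pool.Agent.H348R6.GV4

/-!
# Regular complete ultrafilters over `κ⁺` are non-Galvin

Let `κ` be uncountable and let `U` be a uniform `κ`-complete ultrafilter over `κ⁺` which is
`(κ, κ⁺)`-regular. Then `Gal(U, κ, κ⁺⁺)` fails; in particular `Gal(U, κ⁺, κ⁺⁺)` fails.

Idea: let `h` be a least function that is unbounded modulo `U`, let `y ν` be the set of all
`ξ < h ν` with `ν ∈ B ξ`, where `B` witnesses regularity, and let `f i` (`i < κ⁺⁺`) be increasing
modulo bounded sets. `A i` is the set of all `ν` for which `f i` maps cofinally (below `h ν`) many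
members of `y ν` into `y ν`.
-/

set_option autoImplicit false

namespace Pool.Agent.Results.MP_cc7fb1_lc.RegularCase

open Cardinal Set

universe u

/-- The Galvin property `Gal(F, μ, θ)`: for every sequence of `θ` members of `F` there are `μ` many
indices whose sets have intersection in `F`. -/
def Gal {P : Type u} (F : Filter P) (μ θ : Cardinal.{u}) : Prop :=
  ∀ A : θ.ord.ToType → Set P, (∀ i, A i ∈ F) →
    ∃ I : Set θ.ord.ToType, #I = μ ∧ ⋂ i ∈ I, A i ∈ F

/-- `U` is a uniform `κ`-complete ultrafilter over `κ⁺`. -/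
structure UniformComplete (κ : Cardinal.{u}) (U : Ultrafilter (Order.succ κ).ord.ToType) :
    Prop where
  uniform : ∀ A ∈ U, #A = Order.succ κ
  complete : ∀ S : Set (Set (Order.succ κ).ord.ToType), #S < κ → (∀ s ∈ S, s ∈ U) → ⋂₀ S ∈ U

/-- `U` is `(κ, κ⁺)`-regular: there are `κ⁺` members of `U` such that the intersection of any `κ`
of them is empty. -/
def Regular (κ : Cardinal.{u}) (U : Ultrafilter (Order.succ κ).ord.ToType) : Prop :=
  ∃ B : (Order.succ κ).ord.ToType → Set (Order.succ κ).ord.ToType,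
    (∀ ξ, B ξ ∈ U) ∧ ∀ I : Set (Order.succ κ).ord.ToType, #I = κ → ⋂ ξ ∈ I, B ξ = ∅

theorem result (κ : Cardinal.{u}) (hκ : ℵ₀ < κ) (U : Ultrafilter (Order.succ κ).ord.ToType)
    (hU : UniformComplete κ U) (hreg : Regular κ U) :
    ¬ Gal (U : Filter (Order.succ κ).ord.ToType) κ (Order.succ (Order.succ κ)) ∧
    ¬ Gal (U : Filter (Order.succ κ).ord.ToType) (Order.succ κ) (Order.succ (Order.succ κ)) := by
  obtain ⟨A, hA, hA2⟩ := Pool.Agent.H348R6.GV.not_gal_regular hκ U hU.uniform hU.complete hreg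
  constructor
  · intro hG
    obtain ⟨I, hI, hI2⟩ := hG A hA
    exact hA2 I hI hI2
  · intro hG
    obtain ⟨I, hI, hI2⟩ := hG A hA
    obtain ⟨J, hJ1, hJ2⟩ := le_mk_iff_exists_subset.1
      (show κ ≤ #I by rw [hI]; exact (Order.lt_succ κ).le)
    exact hA2 J hJ2 (Filter.mem_of_superset hI2 (biInter_subset_biInter_left hJ1))

end Pool.Agent.Results.MP_cc7fb1_lc.RegularCase
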